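import Pool.Agent.L7h75.TN.LC
import Pool.Agent.L7h10.BP.GAU

/-!
# Part GAU of project TN (helper75)
-/

set_option autoImplicit false

open Polynomial

namespace Pool.Agent.L7h75.TN

open Pool.Agent.L7h55.TN

theorem SP_eq (A : ℕ) : SP (2 * A + 1) = C 2 * T A := by
  unfold SP T
  have h1 : (((2 * A + 1 : ℕ) : ℤ) - 1) = 2 * (A : ℤ) := by push_cast; ring
  have h2 : (((2 * A + 1 : ℕ) : ℤ) + 1) = 2 * ((A : ℤ) + 1) := by push_cast; ring
  rw [h1, h2, C_mul, C_mul]
  have h3 : 2 * A + 1 + 1 = 2 * A + 2 := rfl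
  rw [h3]
  ring

theorem T_ne_zero (A : ℕ) (hA : 2 ≤ A) : T A ≠ 0 := by
  intro h
  have := T_natDegree A hA
  rw [h] at this
  simp at this

theorem pos_deg (p : ℚ[X]) (hp : p ≠ 0) (hu : ¬ IsUnit p) : 0 < p.natDegree := by
  by_contra h
  have h0 : p.natDegree = 0 := by omega
  apply hu
  rw [eq_C_of_natDegree_eq_zero h0] at hp ⊢
  exact isUnit_C.2 (isUnit_iff_ne_zero.2 (C_ne_zero.1 hp))

/-- part GAU -/
theorem s_GAU : S_GAU := by
  intro A P hA hP hirr
  have hL : L4.map (Int.castRingHom ℚ) = (X - 1) ^ 3 * (X + 1) := by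
    unfold L4
    simp
  have hT0 := T_ne_zero A hA
  have hTm0 : (T A).map (Int.castRingHom ℚ) ≠ 0 := by
    rw [Ne, Polynomial.map_eq_zero_iff Int.cast_injective]
    exact hT0
  have hP2 : L4.map (Int.castRingHom ℚ) * (C (1 / 2 : ℚ) * P) = (T A).map (Int.castRingHom ℚ) := by
    rw [hL]
    rw [SP_eq, Polynomial.map_mul, Polynomial.map_C] at hP
    have h1 : (C (1 / 2 : ℚ) : ℚ[X]) * C ((Int.castRingHom ℚ) 2) = 1 := by
      rw [← C_mul, ← C_1]
      congr 1
      norm_num
    linear_combination (C (1 / 2 : ℚ)) * hP + (T A).map (Int.castRingHom ℚ) * h1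
  obtain ⟨Q, hQ⟩ : L4 ∣ T A := by
    rw [← Polynomial.map_dvd_map (Int.castRingHom ℚ) Int.cast_injective L4_monic]
    exact Dvd.intro _ hP2
  have hLm0 : L4.map (Int.castRingHom ℚ) ≠ 0 := (L4_monic.map _).ne_zero
  have hQm : Q.map (Int.castRingHom ℚ) = C (1 / 2 : ℚ) * P := by
    rw [hQ, Polynomial.map_mul] at hP2
    exact (mul_left_cancel₀ hLm0 hP2).symm
  have hQ0 : Q ≠ 0 := by
    rintro rfl
    rw [mul_zero] at hQ
    exact hT0 hQ
  have hP0 : P ≠ 0 := by
    rintro rfl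
    rw [mul_zero, mul_zero] at hP2
    exact hTm0 hP2.symm
  have hQd : Q.natDegree + 4 = 2 * A + 2 := by
    have h1 := T_natDegree A hA
    rw [hQ, L4_monic.natDegree_mul' hQ0, L4_natDegree] at h1
    omega
  have hQm0 : Q.map (Int.castRingHom ℚ) ≠ 0 := by
    rw [Ne, Polynomial.map_eq_zero_iff Int.cast_injective]
    exact hQ0
  have hPd : P.natDegree = Q.natDegree := by
    have h1 : (Q.map (Int.castRingHom ℚ)).natDegree = Q.natDegree :=
      natDegree_map_eq_of_injective Int.cast_injective Q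
    rw [hQm, natDegree_C_mul (by norm_num)] at h1
    exact h1
  have hPu : ¬ IsUnit P := by
    intro h
    have := natDegree_eq_zero_of_isUnit h
    omega
  rw [irreducible_iff] at hirr
  push Not at hirr
  obtain ⟨p, q, hpq, hpu, hqu⟩ := hirr hPu
  have hp0 : p ≠ 0 := by
    rintro rfl
    rw [zero_mul] at hpq
    exact hP0 hpq
  have hq0 : q ≠ 0 := by
    rintro rfl
    rw [mul_zero] at hpq
    exact hP0 hpq
  obtain ⟨F, G, hFG, hF, hG⟩ := Pool.Agent.L7h10.BP.s_GAU Q (C (1 / 2 : ℚ) * p) q hQ0 (by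
    rw [hQm, hpq]; ring)
  rw [natDegree_C_mul (by norm_num)] at hF
  have hFd : 0 < F.natDegree := by rw [hF]; exact pos_deg p hp0 hpu
  have hGd : 0 < G.natDegree := by rw [hG]; exact pos_deg q hq0 hqu
  have hlc : F.leadingCoeff * G.leadingCoeff = A := by
    have h1 : (T A).leadingCoeff = A := by
      rw [leadingCoeff, T_natDegree A hA, T_coeff_top]
    rw [← h1, hQ, leadingCoeff_mul, L4_monic.leadingCoeff, one_mul, hFG, leadingCoeff_mul]
  have hApos : (0 : ℤ) < A := by exact_mod_cast (by omega : 0 < A)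
  rcases lt_trichotomy F.leadingCoeff 0 with h | h | h
  · have h2 : G.leadingCoeff < 0 := by
      by_contra h3
      push Not at h3
      have := mul_nonpos_of_nonpos_of_nonneg h.le h3
      omega
    refine ⟨-F, -G, ?_, ?_, ?_, ?_, ?_⟩
    · rw [neg_mul_neg, ← hFG, ← hQ]
    · rwa [natDegree_neg]
    · rwa [natDegree_neg]
    · rw [leadingCoeff_neg]; omega
    · rw [leadingCoeff_neg]; omega
  · rw [h, zero_mul] at hlc
    omega
  · have h2 : 0 < G.leadingCoeff := by
      by_contra h3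
      push Not at h3
      have := mul_nonpos_of_nonneg_of_nonpos h.le h3
      omega
    exact ⟨F, G, by rw [← hFG, ← hQ], hFd, hGd, h, h2⟩

end Pool.Agent.L7h75.TN
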