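import Pool.Agent.L7h55.TN.Stm2

/-!
# Parts LC and CG of project TN (helper75)
-/

set_option autoImplicit false

open Polynomial

namespace Pool.Agent.L7h75.TN

open Pool.Agent.L7h55.TN

theorem L4_monic : L4.Monic := by
  unfold L4
  have h1 : (X - 1 : ℤ[X]).Monic := by
    have := monic_X_sub_C (1 : ℤ)
    rwa [C_1] at this
  have h2 : (X + 1 : ℤ[X]).Monic := by
    have := monic_X_add_C (1 : ℤ)
    rwa [C_1] at this
  exact (h1.pow 3).mul h2

theorem L4_natDegree : L4.natDegree = 4 := by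
  unfold L4
  have h1 : (X - 1 : ℤ[X]).Monic := by
    have := monic_X_sub_C (1 : ℤ)
    rwa [C_1] at this
  have h2 : (X + 1 : ℤ[X]).Monic := by
    have := monic_X_add_C (1 : ℤ)
    rwa [C_1] at this
  rw [(h1.pow 3).natDegree_mul h2, h1.natDegree_pow]
  have h3 : (X - 1 : ℤ[X]).natDegree = 1 := by
    have := natDegree_X_sub_C (1 : ℤ)
    rwa [C_1] at this
  have h4 : (X + 1 : ℤ[X]).natDegree = 1 := by
    have := natDegree_X_add_C (1 : ℤ)
    rwa [C_1] at this
  rw [h3, h4]

theorem L4_coeff_zero : L4.coeff 0 = -1 := by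
  rw [coeff_zero_eq_eval_zero]
  unfold L4
  simp

theorem T_coeff_top (A : ℕ) : (T A).coeff (2 * A + 2) = A := by
  unfold T
  rw [coeff_sub, coeff_C_mul, coeff_C_mul, coeff_sub, coeff_sub, coeff_X_pow, coeff_X_pow,
    if_pos rfl, if_neg (by omega), coeff_one, coeff_X, if_neg (by omega), if_neg (by omega)]
  ring

theorem T_natDegree (A : ℕ) (hA : 2 ≤ A) : (T A).natDegree = 2 * A + 2 := by
  apply natDegree_eq_of_le_of_coeff_ne_zero
  · rw [natDegree_le_iff_coeff_eq_zero]
    intro N hN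
    unfold T
    rw [coeff_sub, coeff_C_mul, coeff_C_mul, coeff_sub, coeff_sub, coeff_X_pow, coeff_X_pow,
      if_neg (by omega), if_neg (by omega), coeff_one, coeff_X, if_neg (by omega),
      if_neg (by omega)]
    ring
  · rw [T_coeff_top]
    have : (0 : ℤ) < A := by exact_mod_cast (by omega : 0 < A)
    exact this.ne'

theorem T_coeff_zero (A : ℕ) : (T A).coeff 0 = -(A : ℤ) := by
  rw [coeff_zero_eq_eval_zero]
  unfold T
  simp

/-- part LC -/
theorem s_LC : S_LC := by
  intro A f g hA h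
  have hf0 : f ≠ 0 := by
    rintro rfl
    have := h.lf
    simp at this
  have hg0 : g ≠ 0 := by
    rintro rfl
    have := h.lg
    simp at this
  have hT := T_natDegree A hA
  have hd : 4 + (f.natDegree + g.natDegree) = 2 * A + 2 := by
    rw [← hT, ← h.eq, L4_monic.natDegree_mul' (mul_ne_zero hf0 hg0), L4_natDegree,
      natDegree_mul hf0 hg0]
  refine ⟨?_, ?_, by omega⟩
  · have h1 : (T A).leadingCoeff = A := by
      rw [leadingCoeff, hT, T_coeff_top]
    rw [← h1, ← h.eq, leadingCoeff_mul, leadingCoeff_mul, L4_monic.leadingCoeff, one_mul]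
  · have h1 := congrArg (fun q => q.coeff 0) h.eq
    simp only [mul_coeff_zero, L4_coeff_zero, T_coeff_zero] at h1
    linarith

/-- part CG -/
theorem s_CG : S_CG := by
  intro A f E hev h0 hE
  unfold H
  obtain ⟨m, hm⟩ := hev
  constructor
  · rw [Finset.sum_range_succ]
    have h1 : ((A : ℤ) + 1) ∣ ∑ x ∈ Finset.range f.natDegree,
        f.coeff x * (A : ℤ) ^ x * ((A : ℤ) + 1) ^ (f.natDegree - x) := by
      apply Finset.dvd_sum
      intro i hi
      rw [Finset.mem_range] at hi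
      exact Dvd.dvd.mul_left (dvd_pow_self _ (by omega)) _
    have h2 : ((A : ℤ) + 1) ∣ (A : ℤ) ^ f.natDegree - 1 := by
      rw [hm, ← two_mul, pow_mul]
      have h3 := sub_dvd_pow_sub_pow ((A : ℤ) ^ 2) 1 m
      rw [one_pow] at h3
      refine Dvd.dvd.trans ?_ h3
      exact ⟨A - 1, by ring⟩
    have h4 : ∑ x ∈ Finset.range f.natDegree,
        f.coeff x * (A : ℤ) ^ x * ((A : ℤ) + 1) ^ (f.natDegree - x) +
        f.coeff f.natDegree * (A : ℤ) ^ f.natDegree *
          ((A : ℤ) + 1) ^ (f.natDegree - f.natDegree) - f.leadingCoeff =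
        ∑ x ∈ Finset.range f.natDegree,
        f.coeff x * (A : ℤ) ^ x * ((A : ℤ) + 1) ^ (f.natDegree - x) +
        f.leadingCoeff * ((A : ℤ) ^ f.natDegree - 1) := by
      rw [Nat.sub_self, pow_zero, leadingCoeff]
      ring
    rw [h4]
    exact dvd_add h1 (h2.mul_left _)
  · rw [Finset.sum_range_succ']
    have h1 : E ∣ ∑ k ∈ Finset.range f.natDegree,
        f.coeff (k + 1) * (A : ℤ) ^ (k + 1) * ((A : ℤ) + 1) ^ (f.natDegree - (k + 1)) := by
      apply Finset.dvd_sum
      intro i _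
      have : E ∣ (A : ℤ) ^ (i + 1) := hE.trans (dvd_pow_self _ (by omega))
      exact (this.mul_left _).mul_right _
    have h2 : E ∣ ((A : ℤ) + 1) ^ f.natDegree - 1 := by
      have h3 := sub_dvd_pow_sub_pow ((A : ℤ) + 1) 1 f.natDegree
      rw [one_pow] at h3
      refine Dvd.dvd.trans ?_ h3
      rw [add_sub_cancel_right]
      exact hE
    have h4 : ∑ k ∈ Finset.range f.natDegree,
        f.coeff (k + 1) * (A : ℤ) ^ (k + 1) * ((A : ℤ) + 1) ^ (f.natDegree - (k + 1)) +
        f.coeff 0 * (A : ℤ) ^ 0 * ((A : ℤ) + 1) ^ (f.natDegree - 0) - f.leadingCoeff =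
        ∑ k ∈ Finset.range f.natDegree,
        f.coeff (k + 1) * (A : ℤ) ^ (k + 1) * ((A : ℤ) + 1) ^ (f.natDegree - (k + 1)) +
        f.leadingCoeff * (((A : ℤ) + 1) ^ f.natDegree - 1) := by
      rw [Nat.sub_zero, pow_zero, h0]
      ring
    rw [h4]
    exact dvd_add h1 (h2.mul_left _)

end Pool.Agent.L7h75.TN
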